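import Pool.Agent.Lib.MP_ff4a33_gt.RootProof

set_option autoImplicit false

namespace Pool.Agent.Results.MP_ff4a33_gt.RootPolytope

open Set Pool.Agent.Lib.MP_ff4a33_gt Pool.Agent.Lib.MP_ff4a33_gt.Root

/-- For every `n ≥ 3` the root polytope of type `A_{n-1}` has `n (n - 1)` extreme points, is not a
simplex, and the least dimension of a simplicial refinement of its statistical model is exactly
`2 n - 1`. For `n ≥ 4` this is smaller than the number of extreme points minus one. -/
theorem result (n : ℕ) (hn : 3 ≤ n) :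
    ((rootPolytope n).extremePoints ℝ).ncard = n * (n - 1) ∧
    (¬ ∃ d, IsSimplexOfDim (rootPolytope n) d) ∧
    IsLeast {d : ℕ | HasRefinementOfDim (rootPolytope n) d} (2 * n - 1) ∧
    (4 ≤ n → 2 * n - 1 < ((rootPolytope n).extremePoints ℝ).ncard - 1) := by
  refine ⟨ncard_extremePoints, not_simplex hn, ⟨upper (by omega), fun d hd => lower hn hd⟩, ?_⟩
  intro h4
  rw [ncard_extremePoints]
  obtain ⟨m, rfl⟩ : ∃ m, n = m + 4 := ⟨n - 4, by omega⟩
  have : (m + 4) * (m + 4 - 1) = (m + 4) * (m + 3) := by congr 1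
  rw [this]
  have : (m + 4) * (m + 3) = m * m + 7 * m + 12 := by ring
  rw [this]
  omega

end Pool.Agent.Results.MP_ff4a33_gt.RootPolytope
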